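import Pool.Agent.Run7.h306.TG5

/-!
# The Tate conjecture for the products of all varieties of bounded degree with cyclic coverings of
# large degree, in the full form: finite generation, injectivity and surjectivity

Let `F₀` be a finitely generated field of any characteristic (for instance a number field or a
finite field), with the separable closure `k` and the Galois group `Γ`. As in other starting files, `W` is
the `ℓ`-adic cohomology of the varieties over `k`, with coefficients in an algebraic closure `K` of
`ℚ_ℓ` (a field isomorphic to `ℂ` by `σ`), `GVar W Γ` are the varieties with the action of `Γ` on the
cohomology, and `χ` is the inverse of the cyclotomic character.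

`A^j(X)` (`cycleGroup`) is the group of the cohomology classes of the cycles of codimension `j` with
**integral** coefficients. `TateConjecture χ X` is the assertion of Q1 for `X` and its extensions to the
finite extensions of `F₀`: for all `j` the group `A^j(X)` is finitely generated, and the natural map
from `K ⊗ A^j(X)` to `H^(2j)(X)` is injective, with the image the Tate classes (the elements on
which a subgroup of finite index of `Γ` operates by `χ ^ j`).

**Theorem.** Let `X_1, …, X_r` be smooth projective models of cyclic coverings

  `w ^ N_i = ∏_k l_{i,k} (x) ^ a_{i,k}`

of the projective spaces of dimensions `n_i`, branched along hyperplanes, with exponents prime to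
`N_i`, and let `Z` be **any** smooth projective variety, such that some positive power of each
eigenvalue of the Frobenius `F` at a place of good reduction of `Z` and the `X_i` has at most the degree
`D` over `ℚ`, for instance any variety with Betti numbers at most `D`. Let the residue field `κ` of
the place have `c ^ f` elements, `c` prime, with `c ≡ 1 mod N_i`. Suppose that the `N_i` are pairwise
coprime, and that for each `i` for a `k₀` and a number `r < n_i / 2 + 1`

  `2 S D τ(m) ^ 2 (1 + log m) ≤ r √m`  for all divisors `m > 1` of `N_i`,

where `S` is the sum of the exponents `a_{i,k}`, `k ≠ k₀`, and `τ(m)` is the number of the divisors of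
`m`. Then **the Tate conjecture is true for `X_{i_1} × (X_{i_2} × ( ⋯ × Z))` if and only if it is
true for `Z`**.

In affine coordinates the coverings are `w ^ N = f_1 (x) ^ a_1 ⋯ f_s (x) ^ a_s` with linear
polynomials `f_k` in `n` variables; `S = a_1 + ⋯ + a_s` is the degree of the equation. If `N` is a
prime number the condition is `8 S D (1 + log N) ≤ r √N`: for given equation and given `D` it is true
for **all large prime numbers `N`**, in characteristic zero without further conditions (there are
places with `c ≡ 1 mod N`), and the `X_i` and `Z` may be defined over any finitely generated field.
The numbers `N_i` do not have to be prime. The dimension and the level of `Z` are not restricted, and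
`Z` may be related to the roots of unity of order `N_i`.

(1) More generally, for arbitrary `N_i` and `c`, with a common multiple `N` of the `N_i`, the same is
true if for each subgroup `H` of `(ℤ / N)ˣ` of index at most `D`, each nonempty set `I` of indices
and all `j_i` not divisible by `N_i`, `i ∈ I`, there is a `u` in `H` with
`∑ weight X_i (u j_i) < ∑ (n_i / 2 + 1)` (`AreSmall`), where `weight X j` is the mean over the orbit
`j, c j, …, c ^ (f - 1) j` of the sum of the fractional parts of `j a_k / N`.

## Comparison with earlier results

`MP_0fca13_ag.CoveringsTimesAnyVariety` (helper199) and `MP_950c68_ag.ProductsOfSmallLevel` determine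
the Tate classes (the surjectivity) under conditions on the automorphisms which fix the eigenvalues of `Z`,
or on the level of `Z`. New here are the finite generation of the groups `A^j` and the injectivity of
`K ⊗ A^j → H^(2j)` for the products (which do not follow from the surjectivity; numerical and
homological equivalence need not be the same on `Z`), the converse, and that the condition is
satisfied by **all** `Z` with bounded Betti numbers, for all arrangements of hyperplanes and
exponents, as soon as the degree is large.

## The proof

Let `α_i` be eigenvalues of `F` on the part without invariants of the cohomology of `X_i`, `i ∈ I`,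
and `β` an eigenvalue for `Z`, and suppose that `β ∏ α_i` is a root of unity times a power of `q`. Let
`β' = β ^ t` be of degree at most `D`. The automorphisms of `ℂ` which fix `β'` operate on the roots of
unity of order `N` by a subgroup `H` of index at most `D`. By Stickelberger's theorem and the estimates
of the library for sums over arrangements of hyperplanes, the valuation of `∏ α_i` for the conjugate
by `u ∈ H` is larger than one half of the weight if `∑ weight X_i (u j_i) < ∑ (n_i / 2 + 1)`; for all
these automorphisms the valuation is the same, since `β'` is fixed. The same holds for the complex
conjugate numbers, which is a contradiction. For `c ≡ 1` such a `u` exists: by finite Fourier analysis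
and the inequality of Pólya and Vinogradov on `ℤ / m`, summed over the characters which are trivial
on `H`, each coset of `H` in `(ℤ / m)ˣ` contains numbers smaller than `r m / S`.

So the classes of the cycles, and the Tate classes, of `X × Y` are combinations of products of
classes of cycles on `X` and of classes on `Y`, if `X` is one of the coverings and `Y` the product of
the others and `Z`. Numerical and homological equivalence coincide on `X` (the Tate classes are
algebraic). Let `a_i`, `b_i` be dual bases of the space of the algebraic classes of `X`, where the
`b_i` are classes of integral cycles. Then a class `z` on `X × Y` is the sum of the products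
`a_i × y_i`, `y_i = pr_* (z ∪ b_i)`; `y_i` is the class of an integral cycle if `z` is, and it is a
Tate class if `z` is. So `A^*(X × Y)` is embedded in a sum of copies of `A^*(Y)`, compatibly with the
maps to cohomology.

## The hypotheses

* `HasIntegralOperations`: the products, pull-backs and push-forwards of the classes of integral cycles
  are classes of integral cycles (Fulton).
* `IsGalois`: the formal properties of the operation of `Γ`, for the varieties and their products; a
  cycle is defined over a finite extension of the field.
* `IsCoveringVariety`: the cohomology of `X_i` is the sum of the space generated by the classes of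
  algebraic cycles (the invariants of the covering group) and of a space in degree `n_i` without
  invariants, which is pure (Deligne), and for which the trace formula of Grothendieck and Lefschetz holds
  for the compositions of the Frobenius with the elements of the covering group. This is the case for
  every equivariant toroidal resolution if the hyperplanes have normal crossings.
* `IsOfDegree`: the eigenvalues of `F` for `Z` are algebraic numbers with absolute values integral
  powers of `√q` (Deligne), and the condition on the degrees.

helper306; built on the library of the starting files (estimates of sums over hyperplane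
arrangements by Gauss sums: helper528 and helpers 800, 883, 135, 563, 271, 540, 400, 999, 782, 605,
346; products without resonances: helper876; traces on eigenspaces: helper117; actions on Weil
cohomology: helper125; dual bases: helper132).
-/

set_option autoImplicit false

open CategoryTheory AlgebraicGeometry

namespace Pool.Agent.Results.MP_0fca13_ag.CoveringsBoundedDegree

open Pool.Agent.H914 Pool.Agent.TH125.Gal Run7.h306.TF Run7.h306.TG

/-- **The Tate conjecture (finite generation, injectivity and surjectivity) for the products of a
variety `Z` of bounded degree with cyclic coverings of large degree branched along hyperplanes is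
equivalent to the Tate conjecture for `Z`.** -/
theorem result {k : Type} [Field k] {𝒱 : VarClass k} {ops : CycleOps 𝒱}
    {W : WeilCohomology.{0, 0} ops} (hops : HasIntegralOperations W) (σ : W.K ≃+* ℂ)
    {Γ : Type} [Group Γ] (χ : Γ →* W.Kˣ) (F : Γ) (c : ℕ) [Fact c.Prime] (κ : Type) [Field κ]
    [Fintype κ] [CharP κ c] (f : ℕ) (hf : Fintype.card κ = c ^ f)
    (hχ : ((χ F : W.Kˣ) : W.K) = Fintype.card κ) (D : ℕ) (hD : 0 < D)
    {ι : Type} [Fintype ι] (C : ι → Covering κ) (hC : ∀ i, (C i).IsAdmissible)
    (X : ι → GVar W Γ) (Z : GVar W Γ) (hGX : ∀ i, Run7.h306.TF.IsGalois χ (X i))
    (hX : ∀ i, IsCoveringVariety σ F (C i) (X i))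
    (hZ : IsOfDegree σ F (Fintype.card κ) D Z)
    (hG : ∀ S Y, IsTower X Z S Y → Run7.h306.TF.IsGalois χ Y) :
    -- (1) the general criterion
    (∀ N : ℕ, 0 < N → (∀ i, (C i).N ∣ N) → AreSmall C c f N D → ∀ S Y, IsTower X Z S Y →
      (Run7.h306.TG.TateConjecture χ Y ↔ Run7.h306.TG.TateConjecture χ Z)) ∧
    -- (2) large degrees
    ((∀ i i', i ≠ i' → ((C i).N).Coprime (C i').N) → (∀ i, c % (C i).N = 1) →
      (∀ i, (C i).IsLarge D) → ∀ S Y, IsTower X Z S Y →
      (Run7.h306.TG.TateConjecture χ Y ↔ Run7.h306.TG.TateConjecture χ Z)) := by
  have h1 : ∀ N : ℕ, 0 < N → (∀ i, (C i).N ∣ N) → AreSmall C c f N D → ∀ S Y, IsTower X Z S Y →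
      (Run7.h306.TG.TateConjecture χ Y ↔ Run7.h306.TG.TateConjecture χ Z) :=
    fun N hN hdN hsm S Y hY => main hops σ F hf hχ hD hN hdN hC hsm hGX hX hZ hG hY
  refine ⟨h1, fun hco hc hl => ?_⟩
  exact h1 (∏ i, (C i).N) (Finset.prod_pos fun i _ => by have := (hC i).two_le; omega)
    (fun i => Finset.dvd_prod_of_mem _ (Finset.mem_univ i))
    (areSmall_of (f_pos hf) hC hco hc hl)

end Pool.Agent.Results.MP_0fca13_ag.CoveringsBoundedDegree
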