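import Pool.Agent.Run7.h735.TP.Main

/-!
# The Tate conjecture for double coverings of projective space, by two places

Let `W` be a Weil cohomology theory (for instance `ℓ`-adic cohomology with coefficients in an extension of `ℚ_ℓ`) on a
class of smooth projective varieties over the algebraic closure of a finitely generated field (for instance a number
field), `Γ` the Galois group and `χ` its action on the Tate twists.

Let `X : w ^ 2 = F` be a double covering of the projective space of even dimension `2 d`, or a resolution of such a
covering, and let `V` be the representation of `Γ` over `K₀ = ℚ_ℓ` on the part of `H^(2 d)(X)(d)` which is not
invariant under the involution of the covering (and orthogonal to the exceptional classes).  So the cohomology of `X` is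
the orthogonal sum of a space spanned by classes of cycles and of `V`.  At a place of good reduction with an odd number
`q` of elements of the residue field let `P(T)` be the numerator of the zeta function of the branch locus `F = 0` (for
`d = 1` this is the numerator of the zeta function of the branch curve).

There are usually no algebraic classes in `V`, but this can not be seen at one place: the dimension of `V` is odd in
the cases below, and so each Frobenius element has the eigenvalue `1` or `-1` on `V`.  This is the difficulty in the
work of van Luijk and of Elsenhans and Jahnel on Picard numbers of `K3` surfaces, which is overcome by a comparison of
discriminants of Néron-Severi lattices, for two places.  Here two places are compared for double coverings of any even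
dimension, and in the end only the polynomials `P` modulo `2` of the branch loci are needed, not the numbers of points of
`X`.

**Theorem 1.**  Suppose that at one place the polynomial `P₁` is not divisible modulo `2` by any cyclotomic polynomial of
odd order, and that at another one `P₂(1)` is odd.  Then the Tate conjecture holds for `X`, in all codimensions `j`, over
all finite extensions of the base field -- the natural map from `A^j ⊗ K` to the invariants is bijective, and
homological equivalence is numerical equivalence -- and there are no Tate classes in `V`, except in one case
(`SquareCase`): the characteristic polynomials of `q ^ d φ` at the two places are `(X - ε_i q_i ^ d) R_i` with
`ε_i = ±1`, and the product `δ` of the four numbers `R_i(± q_i ^ d)` is a square in `K₀`; moreover in this case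
`δ ≡ 1` or `δ ≡ 5` modulo `8` according to the parity of the sum of the coefficients of `P₁` and `P₂` in the degrees
`g - 1, g - 3, …`, where `dim V = 2 g + 1`.

**Theorem 2.**  Let `ℓ = 2`.  If the sums of the coefficients of `P₁` and of `P₂` in the degrees `g - 1, g - 3, …` have
different parity, then the exceptional case is impossible, and so the Tate conjecture holds for `X` in all codimensions
over all finite extensions.

An example for Theorem 2 (numbers of points were computed outside of Lean) is the surface of general type with
geometric genus `3` and `dim V = 21`, a resolution of a double plane, in the description of the starting file
`MP_40dc3c_ag.TwoFrobeniusPolynomials`, with the places `3` and `5`: there both `P_i(1)` are odd and the sums of the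
coefficients in the degrees `9, 7, 5, 3, 1` have different parity.  (That file contains a theorem on powers of `X`, under
hypotheses on the characteristic polynomials of Frobenius on `V`; it mentions the present theorem by its name.)

Proof.  Let `N` be a normal subgroup of finite index and suppose that `N` fixes a vector of `V`.  By the congruence
`det (1 - q ^ d φ T) ≡ (1 - T) P₁(T)` modulo `2`, and since no cyclotomic polynomial of odd order divides `P₁`, the space
of the vectors fixed by `N` is a line, it is not isotropic and it is stable under `Γ`.  On the orthogonal complement
`V'` of the line both `φ_i - φ_i⁻¹` are alternating with respect to the form, so that the product of their determinants is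
a square, and these determinants are `R_i(q ^ d) R_i(-q ^ d)` up to a square.  By the functional equation and the congruence
with `P_i` modulo `2` these numbers can be computed modulo `8` (this part is in the starting files,
`Pool/Agent/Y134/Two`).  If `N` fixes no vector of `V` then it fixes no vector of `V ⊗ K`, by the application of
functionals `K → K₀` to the coordinates; hence there are no classes of cycles in `V ⊗ K`, so that a class of cycles is
orthogonal to `V`, and homological and numerical equivalence coincide since the form is nondegenerate.  A Tate class of
degree `2 j` has the component `0` in `V`: for `j ≠ d` since it is orthogonal to `V`, for `j = d` since this component is
fixed by a subgroup of finite index.  Tate classes over the extension given by `Δ` are combinations of classes of cycles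
fixed by `Δ` by averaging; and classes of cycles which are linearly independent over `ℚ` remain independent, as the
intersection numbers are rational and homological equivalence is numerical.
-/

set_option autoImplicit false

universe u

namespace Pool.Agent.Results.MP_0fca13_ag.DoubleCoversTwoPlaces

open Pool.Agent.H914 Pool.Agent.TH125.Gal Pool.Agent.Y130 Pool.Agent.Y134.TF
  Pool.Agent.Run7.h735.TP

/-- **The Tate conjecture for double coverings of projective space, by two places.**  Let `S` be a double covering of
the projective space of dimension `2 d` (or a resolution), `V` the part of `H^(2 d)(d)` not invariant under the covering
involution, over the field `K₀`, and consider two places such that `P₁` is not divisible modulo `2` by the cyclotomic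
polynomials of odd order and `P₂(1)` is odd.  If `SquareCase` does not hold (`SquareStr`), or if `K₀ = ℚ_2` and the sums
of the coefficients of `P₁` and `P₂` in the degrees `g - 1, g - 3, …`, `dim V = 2 g + 1`, have different parity
(`ParityStr`), then the Tate conjecture holds for `S` in all codimensions over all finite extensions, and there are no
Tate classes in `V` (`TateHolds`). -/
theorem result {k : Type u} [Field k] {𝒱 : VarClass k} {ops : CycleOps 𝒱}
    (W : WeilCohomology.{u, 0} ops) {Γ : Type} [Group Γ] (χ : Γ →* W.Kˣ) (S : PVar W Γ) (d : ℕ)
    (h : Cover χ S d) (h' : TwoPlaces χ S d) : TateHolds χ S d :=
  h'.elim h.square h.parity

end Pool.Agent.Results.MP_0fca13_ag.DoubleCoversTwoPlaces
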