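import Pool.Agent.Run7.h711.PL.Tail

/-!
# Tate classes on all the quadratic twists of a hyperelliptic surface over a finite field: the law, the parity and the
# tails of the number which bounds the Picard number and the gap, and the full conjecture for at least 20.97 percent

Let `k` be a finite field of odd characteristic with `q` elements, `K = k(t)`, `g ≥ 1`, and let
`f = x ^ (2 g + 1) + f_{2 g - 1} x ^ (2 g - 1) + ... + f_0` be a polynomial over `k[t]` with
`deg f_j ≤ 2 N (2 g + 1 - j)`, `N ≥ 1`, such that the discriminant of `f` (with respect to `x`) is a squarefree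
polynomial in `t` and the polynomial over `k` formed by the coefficients of `t ^ (2 N (2 g + 1 - j))` in the `f_j` is
irreducible. If the characteristic is larger than `2 g + 1`, these `f` are a positive proportion of all the `f` with
`deg f_j ≤ 2 N (2 g + 1 - j)`. For a squarefree `D` in `k[t]` prime to the discriminant let `X_D` be a smooth
projective model over `k` of the surface `D(t) y ^ 2 = f(x, t)`, fibred over the line in curves of genus `g` with a
section, and let `J_D` be the Jacobian of its generic fibre over `K`. The `X_D` are the quadratic twists of `X_1`; their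
geometric genus tends to infinity with the degree of `D`.

For `j = 1` the group `A^1(X)` of the question is finitely generated of rank `ρ(X)`, the Picard number, and
`A^1(X) ⊗ ℚ_ℓ` injects into the Tate classes (theorem of the base and Matsusaka); the question is whether the
dimension of the space of Tate classes is `ρ(X)`. By Shioda and Tate `ρ(X_D)` is `2 + rank J_D(K)` plus the number of
the components of the fibres which do not meet the section (the trivial part), and for `ℓ = 2` the dimension of the
space of Tate classes exceeds `ρ(X_D)` by the corank of `Sha(J_D / K)[2 ^ ∞] = Br(X_D)[2 ^ ∞]`, which is at most the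
dimension of `Sha(J_D / K)[2]`. As `J_D(K)` has no element of order two, `[J_D(K) : 2 J_D(K)] = 2 ^ (rank J_D(K))`
(Lang, Neron). So the binary logarithm `s(D)` of

`S(D) = [J_D(K) : 2 J_D(K)] · #Sha(J_D / K)[2] = 2 ^ (rank J_D(K)) · #Br(X_D)[2]`

is at least the dimension of the space of Tate classes outside the trivial part.

**Theorem.** Fix the leading coefficient `u ≠ 0` in `k` and let `D` run through the squarefree polynomials of degree
`m` with leading coefficient `u` which are prime to the discriminant (at least `c q ^ m` of the `q ^ m` polynomials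
of degree `m` with leading coefficient `u`, `c > 0`). The field `k` and `f` are fixed, and `m` tends to infinity.

(1) `S(D) = 2 ^ s` for some `s = s(D)`, and `J_D(K)` has no element of order two. If `S(D) = 1`, then multiplication
by two is bijective on `J_D(K)` and the 2-primary part of the Tate-Shafarevich group is zero.
(2) The proportion of the `D` with `s(D) = s` tends to `α_s = α_0 ∏_{i = 1}^s 2 / (2 ^ i - 1)`,
`1 / α_0 = ∏_{j ≥ 0} (1 + 2 ^ (-j)) = 4.76846...`.
(3) (Parity.) The proportion of the `D` for which `S(D)` is a square, that is, `s(D)` is even, tends to `1 / 2`.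
(4) (Tails.) The proportion of the `D` with `s(D) ≥ s` tends to `1 - α_0 - ... - α_{s - 1}`, which is at most
`2 ^ (- s (s - 1) / 2)`; the mean of `S(D) ^ j` tends to `(1 + 2) (1 + 4) ... (1 + 2 ^ j)` for every `j`.

**Consequences** (not formalised). For the `D` with `s(D) = 0`, a proportion which tends to `α_0 > 0.2097`, the
answer to the question is positive for `X_D`, `j = 1` and all `ℓ`, in the full form: the Brauer group is finite, so the
map is bijective (Artin and Tate, Milne, Kato and Trihan); `A^1(X_D)` is spanned up to finite index by the trivial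
part. This remains true for `X_D` over every finitely generated field `F` which contains `k` and in which `k` is
algebraically closed, because `Gal(F^sep / F)` acts through all of `Gal(k^sep / k)`. For all `s ≥ 2`, up to a
proportion of the `D` of upper density at most `2 ^ (- s (s - 1) / 2)`, the space of Tate classes of `X_D` for `ℓ = 2`
is spanned by algebraic classes together with fewer than `s` further classes. The pairing of Cassels and Tate on
`Sha(J_D / K)` is alternating (Poonen and Stoll; the curve has a rational point), so `s(D)` has the parity of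
`rank J_D(K)` plus the corank of `Sha(J_D / K)[2 ^ ∞]`: for `ℓ = 2` the dimension of the space of Tate classes modulo
the trivial part is even for exactly one half of the `D` and odd for the other half, for which there is always a
Tate class outside the trivial part.

The starting results on this page are about coverings, products of curves and abelian varieties; here the surfaces
have no special structure: the Galois group of `f` over `k'(t)`, `k'` the algebraic closure of `k`, is the symmetric
group, `q` is fixed, and the twists are in their natural order.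

Proof. `S(D)` is the order of the 2-Selmer group (`Pool/Agent/Run7/h886/PL/Seq.lean`,
`Pool/Agent/Run7/h711/PL/SEQ.lean`), and its law and moments are the theorem of project PRL of helper286 (see
`Results/MP_60d5ce_nt/ExactLawOfTwists.lean`) with pieces by helpers 160, 209, 212, 215, 216, 270, 303, 382, 416, 502,
547, 704, 711, 760, 803, 824, 847, 908, 957, on the basis of project TG (helper784 and many others) and the libraries
TS (helper875), PJ and JB (helper352), PP (helper874); the part on the family of the `f` is in the file
`Pool/Agent/Run7/h886/TG/Port.lean` of helper886. The parity follows from `∑ α_s (-1) ^ s = 0`.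
-/

set_option autoImplicit false
set_option linter.all false

open Polynomial Filter IsDedekindDomain
open scoped Classical Topology

namespace Pool.Agent.Results.MP_0fca13_ag.ParityAndGaps

open Pool.Agent.Y713.Jac (J)
open Pool.Agent.N352.Sha (UniquelyDivisible ShaTrivial)
open Run7.h286.SelDef (ShaTwo twoIndex NoTwoTorsion)

/-! ### The family and the twists -/

section defs

variable {k : Type} [Field k]

/-- The discriminant of the monic polynomial `f` of degree `2 g + 1` in `x` over `k[t]`, up to the sign: the
resultant of `f` and its derivative. -/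
noncomputable def discriminant (g : ℕ) (f : k[X][X]) : k[X] :=
  f.resultant (derivative f) (2 * g + 1) (2 * g)

/-- `f = x ^ (2 g + 1) + f_{2 g - 1} x ^ (2 g - 1) + ... + f_0` with `deg f_j ≤ M (2 g + 1 - j)`. -/
structure HasHeight (g M : ℕ) (f : k[X][X]) : Prop where
  monic : f.Monic
  degree : f.natDegree = 2 * g + 1
  trace : f.coeff (2 * g) = 0
  height : ∀ j ≤ 2 * g, (f.coeff j).natDegree ≤ M * (2 * g + 1 - j)

/-- The reduction of `f` at infinity, the polynomial `x ^ (2 g + 1) + ∑ r_j x ^ j` over `k` where `r_j` is the
coefficient of `t ^ (M (2 g + 1 - j))` in `f_j`. -/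
noncomputable def atInfinity (g M : ℕ) (f : k[X][X]) : k[X] :=
  X ^ (2 * g + 1) + ∑ j ∈ Finset.range (2 * g + 1), C ((f.coeff j).coeff (M * (2 * g + 1 - j))) * X ^ j

/-- The family: squarefree discriminant, irreducible reduction at infinity. -/
structure InFamily (g N : ℕ) (f : k[X][X]) : Prop extends HasHeight g (2 * N) f where
  inert : Irreducible (atInfinity g (2 * N) f)
  squarefree : Squarefree (discriminant g f)

/-- The squarefree polynomials of degree `m` with leading coefficient `u` which are prime to the discriminant
of `f`. -/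
def Twists (g : ℕ) (f : k[X][X]) (u : k) (m : ℕ) : Set k[X] :=
  {D | D.leadingCoeff = u ∧ D.natDegree = m ∧ Squarefree D ∧ IsCoprime D (discriminant g f)}

variable (K : Type) [Field K] [Algebra k[X] K]

/-- The monic equation `y ^ 2 = D ^ (2 g + 1) f(x / D)` of the quadratic twist `D y ^ 2 = f(x)` over
`K = k(t)`, the generic fibre of the surface `X_D`. -/
noncomputable def twist (f : k[X][X]) (D : k[X]) : K[X] := (f.scaleRoots D).map (algebraMap k[X] K)

variable [IsFractionRing k[X] K]

/-- `S(D) = [J(K) : 2 J(K)] · #Sha(J / K)[2]` for the Jacobian `J` of `D y ^ 2 = f(x)` over `K = k(t)`. -/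
noncomputable def size (f : k[X][X]) (D : k[X]) : ℕ :=
  twoIndex (J 2 (twist K f D) K) * Nat.card (ShaTwo k (twist K f D))

/-- Properties of the Jacobian `J` of one twist: `J(K)` has no element of order two, `J(K) / 2 J(K)` is finite,
`S(D)` is a power of two, and if `S(D) = 1`, then multiplication by two is bijective on `J(K)` and the 2-primary part
of the Tate-Shafarevich group is zero. -/
structure Properties (f : k[X][X]) (D : k[X]) : Prop where
  torsion : NoTwoTorsion (J 2 (twist K f D) K)
  finite : twoIndex (J 2 (twist K f D) K) ≠ 0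
  power : ∃ s : ℕ, size K f D = 2 ^ s
  divisible : size K f D = 1 → UniquelyDivisible 2 (J 2 (twist K f D) K)
  sha : size K f D = 1 → ShaTrivial 2 (twist K f D) k[X]

end defs

/-- The sets `T m` of polynomials have at least `c q ^ m` elements for large `m`, `c > 0`. -/
def ManyIn {k : Type} [Field k] (T : ℕ → Set k[X]) : Prop :=
  ∃ c : ℝ, 0 < c ∧ ∀ᶠ m : ℕ in atTop, c * (Nat.card k : ℝ) ^ m ≤ ((T m).ncard : ℝ)

/-- The proportion of the elements of `T m` with the property `P` tends to `a`. -/
def ProportionTendsTo {A : Type} (T : ℕ → Set A) (P : A → Prop) (a : ℝ) : Prop :=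
  Tendsto (fun m => (({D ∈ T m | P D} : Set A).ncard : ℝ) / ((T m).ncard : ℝ)) atTop (𝓝 a)

/-- The mean of `φ` over `T m` tends to `a`. -/
def MeanTendsTo {A : Type} (T : ℕ → Set A) (φ : A → ℝ) (a : ℝ) : Prop :=
  Tendsto (fun m => (∑ᶠ D ∈ T m, φ D) / ((T m).ncard : ℝ)) atTop (𝓝 a)

/-- The weights `∏_{i = 1}^s 2 / (2 ^ i - 1)` of the limit law. -/
noncomputable def weight (s : ℕ) : ℝ := ∏ i ∈ Finset.range s, (2 : ℝ) / (2 ^ (i + 1) - 1)

/-- The limit law. -/
noncomputable def α (s : ℕ) : ℝ := weight s / ∑' i, weight i

/-- The law, the parity, the tails and the moments of the function `S` on the sets `T m`. -/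
structure HasLaw {A : Type} (T : ℕ → Set A) (S : A → ℕ) : Prop where
  law : ∀ s : ℕ, ProportionTendsTo T (fun D => S D = 2 ^ s) (α s)
  parity : ProportionTendsTo T (fun D => IsSquare (S D)) (1 / 2)
  tails : ∀ s : ℕ, ProportionTendsTo T (fun D => 2 ^ s ≤ S D) (1 - ∑ i ∈ Finset.range s, α i)
  moments : ∀ j : ℕ, MeanTendsTo T (fun D => (S D : ℝ) ^ j) (∏ i ∈ Finset.Icc 1 j, (1 + (2 : ℝ) ^ i))

/-- The numbers: `∑ α_s = 1`, `1 / α_0 = ∏_{j ≥ 0} (1 + 2 ^ (-j))`, `0.20971 < α_0 < 0.20972`, and the tails
`1 - α_0 - ... - α_{s - 1}` are at most `2 ^ (- s (s - 1) / 2)`. -/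
structure Numbers : Prop where
  sum : HasSum α 1
  prod : HasProd (fun j : ℕ => 1 + (1 / 2 : ℝ) ^ j) (1 / α 0)
  lower : 0.20971 < α 0
  upper : α 0 < 0.20972
  tails : ∀ s : ℕ, (1 - ∑ i ∈ Finset.range s, α i) * 2 ^ (s * (s - 1) / 2) ≤ 1

/-- A positive proportion of the `f` with `deg f_j ≤ 2 N (2 g + 1 - j)` is in the family, `N → ∞`. -/
def ManyFamilies (k : Type) [Field k] (g : ℕ) : Prop :=
  ∃ c : ℝ, 0 < c ∧ ∀ᶠ N : ℕ in atTop,
    0 < {f : k[X][X] | HasHeight g (2 * N) f}.ncard ∧
    c * ({f : k[X][X] | HasHeight g (2 * N) f}.ncard : ℝ) ≤ ({f : k[X][X] | InFamily g N f}.ncard : ℝ)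

/-! ### Comparison with the definitions of the proof -/

theorem inFam {k : Type} [Field k] {g N : ℕ} {f : k[X][X]} :
    InFamily g N f ↔ Run7.h886.TG.InFam g N f :=
  ⟨fun h => ⟨⟨h.monic, h.degree, h.trace, h.height⟩, h.inert, h.squarefree⟩,
    fun h => ⟨⟨h.ht.mon, h.ht.deg, h.ht.tr, h.ht.ht⟩, h.inert, h.sq⟩⟩

theorem α_eq (s : ℕ) : α s = Run7.h711.PL.al s := rfl

theorem numbers : Numbers := by
  obtain ⟨n1, n2, n3, n4, n5⟩ := Run7.h160.PL.num
  have hW : Run7.h286.PL.wt = weight := rfl
  rw [hW] at n1 n2 n3 n4
  have hs : 4.76845 < ∑' i, weight i ∧ ∑' i, weight i < 4.76847 := by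
    rw [abs_lt] at n4
    constructor <;> linarith [n4.1, n4.2]
  have h0 : α 0 = 1 / ∑' i, weight i := by
    unfold α
    rw [show weight 0 = 1 by simp [weight]]
  have hpos : 0 < ∑' i, weight i := by linarith [hs.1]
  refine ⟨Run7.h711.PL.al_sum, ?_, ?_, ?_, Run7.h711.PL.tail_le⟩
  · rw [h0, one_div_one_div]
    exact n3
  · rw [h0, lt_div_iff₀ hpos]
    nlinarith [hs.2]
  · rw [h0, div_lt_iff₀ hpos]
    nlinarith [hs.1]

/-- **Theorem.** Let `k` be a finite field of odd characteristic with `q` elements, `K = k(t)`, `g ≥ 1`.

(A) Let `f` be in the family and `u ≠ 0` in `k`, and let `D` run through the squarefree polynomials of degree `m`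
with leading coefficient `u` which are prime to the discriminant of `f`. There are at least `c q ^ m` of them, `c > 0`,
`m` large. All of them have the properties `Properties`, and for `m → ∞` the proportion of those with
`S(D) = [J(K) : 2 J(K)] · #Sha(J / K)[2] = 2 ^ s` tends to `α_s`, the proportion of those for which `S(D)` is a square
tends to `1 / 2`, the proportion of those with `S(D) ≥ 2 ^ s` tends to `1 - α_0 - ... - α_{s - 1} ≤ 2 ^ (- s (s - 1) / 2)`,
and the mean of `S(D) ^ j` tends to `(1 + 2) (1 + 4) ... (1 + 2 ^ j)`.
(B) The numerical values of the law.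
(C) If the characteristic is larger than `2 g + 1`, a positive proportion of all `f` with
`deg f_j ≤ 2 N (2 g + 1 - j)` belongs to the family. -/
theorem result (g : ℕ) (hg : 1 ≤ g) (k : Type) [Field k] [Finite k] (h2 : (2 : k) ≠ 0)
    (K : Type) [Field K] [Algebra k[X] K] [IsFractionRing k[X] K] :
    (∀ (N : ℕ) (f : k[X][X]), 1 ≤ N → InFamily g N f → ∀ u : k, u ≠ 0 →
      ManyIn (Twists g f u) ∧ (∀ m, ∀ D ∈ Twists g f u m, Properties K f D) ∧
        HasLaw (Twists g f u) (size K f)) ∧
    Numbers ∧ (((2 * g + 1).factorial : k) ≠ 0 → ManyFamilies k g) := by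
  refine ⟨fun N f hN hf u hu => ?_, numbers, fun hp => ?_⟩
  · have hF := (inFam.1 hf).fm hg hN h2
    refine ⟨Run7.h711.PL.many hF hu, fun m D hD => ?_, fun s => Run7.h711.PL.law K hF hu s,
      Run7.h711.PL.parity K hF hu, fun s => Run7.h711.PL.atLeast K hF hu s,
      fun j => Run7.h711.PL.moment K hF hu j⟩
    obtain ⟨h1, h2, h3, h4⟩ := Run7.h711.PL.one K hF hu hD
    exact ⟨h2, h3, ⟨_, h1⟩, fun h => (h4 h).1, fun h => (h4 h).2⟩
  · obtain ⟨c, hc, h⟩ := Run7.h886.TG.fam_pos (k := k) g hg hp
    refine ⟨c, hc, ?_⟩
    filter_upwards [h] with N hN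
    have e1 : {f : k[X][X] | HasHeight g (2 * N) f} =
        {f : k[X][X] | Pool.Agent.N352.PJ.Ht g (2 * N) f} := Set.ext fun f =>
          ⟨fun h => ⟨h.monic, h.degree, h.trace, h.height⟩, fun h => ⟨h.mon, h.deg, h.tr, h.ht⟩⟩
    have e2 : {f : k[X][X] | InFamily g N f} = {f : k[X][X] | Run7.h886.TG.InFam g N f} :=
      Set.ext fun f => inFam
    rw [e1, e2]
    exact hN

end Pool.Agent.Results.MP_0fca13_ag.ParityAndGaps
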