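import Mathlib
import Pool.Agent.Run7.h8.IC.TateC

/-!
# The ring of Tate classes on all products of powers of simple abelian varieties over finite fields:
# CM fields with isolated cycles of automorphisms, for instance simple abelian varieties of prime
# power dimension

Let `A i` be finitely many simple abelian varieties over the field with `q = p ^ m` elements, with
Weil numbers `π i` that generate the CM fields `K i = ℚ(π i)`. Let `Ω` be an algebraic closure of
`ℚ_ℓ`. We determine the Tate classes, over all finite extensions, on all products `X` of copies of
the `A i` (all powers, all degrees). **Nothing is assumed on the slopes and on the norms of the
`π i`**: there may be exotic classes of any kind. The only condition is on the CM subfields.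

* (`CyclicFamily`) For every family of CM subfields `T i` of the `K i`, `i ∈ S ≠ ∅`, some automorphism
  `τ` of `ℂ` has an *isolated cycle* on the complex embeddings of the `T i` (`IsolatedCycle`):
  for one embedding `ψ` the cycle of `ψ` under `τ` has `n > 1` elements, where `n` is any power
  of any prime number (or `n = 2 ^ a r ^ b`, `a > 0`, `r` an odd prime number, and the cycle is
  stable under complex conjugation), and `n` does not divide the length of any other cycle,
  except for that of the complex conjugate of `ψ`. By the theorem of Chebotarev this is a
  condition on the decomposition of prime numbers: some prime number, unramified in the `T i`,
  has exactly one prime ideal, or one pair of complex conjugate prime ideals, in the fields `T i`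
  whose residue degree is divisible by `n`, and this residue degree is `n`. Alternatively the
  family may have one of the properties of the starting file TateRingOfPowers: some prime number
  divides one of the discriminants of the `T i`, but its third power does not divide their product; or
  some automorphism of `ℂ` moves at least one and at most five embeddings; and for norms with only two
  slopes third power and five may be replaced by fourth power and seven.

A CM subfield `T` of `K i` is called degenerate (`HasDegenerate`) if for two different embeddings of `T`
some positive powers, with the same exponent, of the conjugates of `N(π i) ^ 2 / p ^ (m [K i : T])` are
equal; here `N` is the norm to `T`.

1. If powers of conjugates of such norms from different fields `K i`, `K i'` are never equal, unless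
   they are roots of unity (`NonMixing`), then (`RingGenerated`) the ring of Tate classes of every
   product `X` is generated by the Tate classes of degree two, which are divisor classes by Tate's
   theorem, and by the pull-backs, along homomorphisms `X → A i × A i'`, `X → A i`, of Tate classes of
   `A i × A i'` and `A i`, where `K i` and `K i'` have degenerate CM subfields. (Homomorphisms are
   linear maps that commute with a power of the Frobenius, by Tate's theorem.) In particular the
   Tate conjecture for the abelian varieties `A i × A i'` (`i = i'` allowed) implies the Tate
   conjecture for all products of powers of the `A i`. If, moreover, the differences of the slopes
   from the middle slope are odd multiples of one number, for instance if all `A i` are ordinary,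
   then the pull-backs of Tate classes of the single `A i` suffice: the Tate conjecture for the `A i`
   implies it for all products of powers.
2. **An example without any condition on subfields, slopes or norms**: let `A` be **any** simple abelian
   variety over a finite field for which `K = ℚ(π)` has degree `2 r ^ k`, `r` a prime number (for
   instance, `A` has dimension `r ^ k` and commutative endomorphism algebra), such that some
   automorphism of `ℂ` acts on the pairs of complex conjugate embeddings of `K` as one cycle
   (`OneOrbit`; for instance some prime number is inert in the maximal real subfield of `K`, or is
   totally ramified there and does not divide the degree). Then the rings of Tate classes of all powers
   of `A` are generated by divisor classes and pull-backs of Tate classes of `A × A` (of `A`, if `A` is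
   ordinary). So the Tate conjecture for `A × A` (for `A`, if `A` is ordinary) implies the Tate
   conjecture for all powers of `A`. Here `K` can have many CM subfields and `A` can have exotic
   classes: for instance, if `A` is ordinary of dimension `9` and `K` contains an imaginary quadratic
   field, then the field `T ⊂ K` of degree `6` can be degenerate, and there are exotic classes in
   codimension `3`.

The starting file TateRingOfPowers has this theorem for families of CM subfields with the
alternative properties in `CyclicFamily`, and with automorphisms which act on the pairs of conjugate
embeddings as one cycle of odd *prime* length and *fix all other embeddings* (and RingOfGoodClasses
has it for fields with many flips, that is, elements of order two in the Galois group). New is that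
the length can be any prime power, including powers of two, or `2 ^ a r ^ b`, and that the other
embeddings can move, as long as the lengths of their cycles are not divisible by `n`; so the second
part is new for all `k > 1`.

The proof. A Tate class is a combination of monomials in an eigenbasis, which correspond to families
of conjugates of the `π i` whose product is, up to a root of unity, a power of the square root of `q`.
By the theorem of Kronecker this is a linear relation between the slopes of the `π i` at all places
over `p`. For fields with isolated cycles, every such relation comes from CM subfields to which
the trace of the slope function does not separate embeddings: let `c` be a relation and `w` the slope
function on the embeddings of a family of CM subfields, `∑ c (z) w (g z) = 0` for all automorphisms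
`g`. We apply this to `g τ ^ j`, multiply by `ζ ^ (-j)`, where `ζ` is a primitive `n`-th root of unity,
and sum over `j`. The cycles whose length is not divisible by `n` do not contribute. So for all
automorphisms `h`, `g` the product of `∑ c (h τ ^ i ψ) ζ ^ i` and of `∑ w (g τ ^ j ψ) ζ ^ (-j)`
is zero, and by the irreducibility of the cyclotomic polynomial `c` or `w` is invariant, with all its
translates, under an automorphism that moves `ψ`. Then (descent of W527) one passes to smaller CM
subfields, and the relations are approximated by relations with values in `{-1, 0, 1}` (successive
rounding along the same chain of subfields). So every family contains a pair of complex conjugate
numbers or a subfamily of different conjugates of one `π i` with the same property, where `K i` has a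
degenerate CM subfield.
-/

set_option autoImplicit false

namespace Pool.Agent.Results.MP_0fca13_ag.RingIsolatedCycles

open Pool.Agent.W527.TateRing Run7.h8.IC.Ring

/-- **The ring of Tate classes on all products of powers of abelian varieties over finite fields with
Weil numbers in CM fields with isolated cycles, for instance for simple abelian varieties of prime
power dimension.** -/
theorem result {p m : ℕ} [Fact p.Prime] :
    (∀ {ι : Type} [Fintype ι] (W : ι → WeilNumber p m), CyclicFamily W → NonMixing W →
      RingGenerated W) ∧
    (∀ W : WeilNumber p m, IsPrimePower W → RingGenerated (fun _ : Unit => W)) :=
  ⟨fun _ h1 h2 => ringGenerated h1 h2, fun _ h => ringGenerated_single h⟩

end Pool.Agent.Results.MP_0fca13_ag.RingIsolatedCycles
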